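import Mathlib
import Pool.Agent.H27.SU.CGmain

/-!
# MP_cda23d_nt: `j = a/b` with `a` cube-free
-/

set_option autoImplicit false

namespace Pool.Agent.Results.MP_cda23d_nt.CubeFree

open Pool.Agent.H27.SU
open scoped NumberTheorySymbols

/-- **Theorem.** Let `E/ℚ` be an elliptic curve, `j(E) = a/b` in lowest terms, `a` not a cube, the exponents of `2` and
`3` in `a` zero or prime to `3`, let `p ≥ 29` be a prime, and assume that every prime `r ≥ 5` whose exponent in `a` is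
`3 mod 6` satisfies `r = 1 mod 3` and `16 r² ≤ 3 p²` (all this holds for every cube-free `a ≠ ±1`).  If the image of
`ρ_{E,p}` is contained in the normaliser of a nonsplit Cartan subgroup then `p = 2 mod 3`; `16 ∣ a`, or `a` is odd and
`-7` is a nonresidue modulo `p`; if `3 ∤ a` then `p` divides `b - (a/3)`; and if `p = 1 mod 4` then `p` divides `b - 1`
if `j(E) < 1728` and `b + 1` otherwise.  For integral `j(E)` (`b = 1`) this gives `j(E) ≠ 2 mod 3` and, for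
`p = 1 mod 4`, `j(E) < 1728`. -/
theorem result (E : WeierstrassCurve ℚ) [E.IsElliptic] (hcube : ∀ c : ℤ, E.j.num ≠ c ^ 3)
    (h2 : (2 : ℤ) ∣ E.j.num → ¬ 3 ∣ padicValInt 2 E.j.num)
    (h3 : (3 : ℤ) ∣ E.j.num → ¬ 3 ∣ padicValInt 3 E.j.num) (p : ℕ) [Fact p.Prime] (hp : 29 ≤ p)
    (h6 : ∀ r : ℕ, r.Prime → 5 ≤ r → padicValInt r E.j.num % 6 = 3 →
      r % 3 = 1 ∧ 16 * r ^ 2 ≤ 3 * p ^ 2)
    (hN : InNonsplitNormaliser E p) :
    p % 3 = 2 ∧ (E.j.num % 2 = 1 ∧ legendreSym p (-7) = -1 ∨ (16 : ℤ) ∣ E.j.num) ∧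
      (¬ (3 : ℤ) ∣ E.j.num → (p : ℤ) ∣ E.j.den - J(E.j.num | 3)) ∧
      (p % 4 = 1 → (p : ℤ) ∣ E.j.den - (if E.j < 1728 then 1 else -1)) :=
  cube_free_rat E hcube h2 h3 p hp h6 hN

end Pool.Agent.Results.MP_cda23d_nt.CubeFree
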