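import Mathlib
import Pool.Agent.H27.LC.Final

/-!
# MP_c76564_co: reduction to graphs without a split
-/

set_option autoImplicit false

namespace Pool.Agent.H27.Old.SplitReduction

open Pool.Agent.H27.LC

/-- **Theorem.** Let `C` be a hereditary class of finite graphs of unbounded linear cliquewidth whose members without a
split have bounded linear cliquewidth. Then some FO-transduction of `C` is weakly sparse and has unbounded pathwidth. -/
theorem result (C : GClass) (hC : UnboundedLCW C)
    (hp : ∃ k : ℕ, ∀ (n : ℕ) (G : SimpleGraph (Fin n)), C.mem n G → ¬ HasSplit G → LinearCliquewidthLE G k) :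
    Q1Conclusion C :=
  split_reduction C hC hp

end Pool.Agent.H27.Old.SplitReduction
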