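import Mathlib
import Pool.Agent.H27.LC.Mfin

/-!
# MP_c76564_co: classes with static tree models (m-partite cographs)
-/

set_option autoImplicit false

namespace Pool.Agent.H27.Old.StaticTreeModels

open Pool.Agent.H27.LC

/-- **Theorem.** Let `C` be a hereditary class of finite graphs of unbounded linear cliquewidth all of whose members have
symmetric tree models with `m` colours and quotients of width at most `w` (for `w = m` this contains the `m`-partite
cographs). Then some FO-transduction of `C` is weakly sparse and has unbounded pathwidth. -/
theorem result (C : GClass) (hC : UnboundedLCW C) (m w : ℕ)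
    (hM : ∀ (n : ℕ) (G : SimpleGraph (Fin n)), 0 < n → C.mem n G →
      ∃ (L : Set (Set (Fin n))) (c : Fin n → Fin m), TreeModel G m w L c) :
    Q1Conclusion C :=
  static_models C hC m w hM

end Pool.Agent.H27.Old.StaticTreeModels
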