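import Mathlib
import Pool.Agent.H27.KQCircle

/-!
# Three sets covering the integers

If three sets cover the integers, then the union of their difference sets contains a
one-dimensional Bohr set of radius `1/3`. The proof views the covering as a colouring with values
in the circle, all of whose increments along a missing difference are at distance at least `1/3`
from zero. Since `1/3 > 1/4`, these increments form a real-valued cocycle, and its rotation number
is the required frequency.
-/

set_option autoImplicit false

namespace Pool.Agent.H27.Old.ThreeSets83445a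

open Pool.Agent.H27.KQ

theorem fract_of_mem {y : ℝ} (h : y = 1 / 3 ∨ y = 2 / 3 ∨ y = -1 / 3 ∨ y = -2 / 3) :
    1 / 3 ≤ Int.fract y ∧ Int.fract y ≤ 1 - 1 / 3 := by
  rcases h with h | h | h | h
  · have hf : ⌊y⌋ = 0 := by rw [Int.floor_eq_iff, h]; norm_num
    rw [Int.fract, hf, h]; norm_num
  · have hf : ⌊y⌋ = 0 := by rw [Int.floor_eq_iff, h]; norm_num
    rw [Int.fract, hf, h]; norm_num
  · have hf : ⌊y⌋ = -1 := by rw [Int.floor_eq_iff, h]; norm_num
    rw [Int.fract, hf, h]; norm_num
  · have hf : ⌊y⌋ = -1 := by rw [Int.floor_eq_iff, h]; norm_num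
    rw [Int.fract, hf, h]; norm_num

/-- If three sets cover the integers, then there is a real number `θ` such that every integer `n`
for which `θ * n` is at distance less than `1/3` from the nearest integer is a difference of two
elements of one of the three sets. -/
theorem result (A : Fin 3 → Set ℤ) (hA : ∀ x : ℤ, ∃ i, x ∈ A i) :
    ∃ θ : ℝ, ∀ n : ℤ, |θ * n - round (θ * n)| < 1 / 3 →
      ∃ i, ∃ a ∈ A i, ∃ b ∈ A i, n = a - b := by
  classical
  choose col hcol using hA
  set S : Set ℤ := {n : ℤ | ∀ x, col (x + n) ≠ col x} with hS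
  have h3 : ∀ s ∈ S, ∀ x : ℤ,
      1 / 3 ≤ Int.fract ((((col (x + s)).val : ℝ) / 3) - ((col x).val : ℝ) / 3) ∧
      Int.fract ((((col (x + s)).val : ℝ) / 3) - ((col x).val : ℝ) / 3) ≤ 1 - 1 / 3 := by
    intro s hs x
    apply fract_of_mem
    have hne := hs x
    generalize col (x + s) = i at hne ⊢
    generalize col x = j at hne ⊢
    fin_cases i <;> fin_cases j <;> simp at hne ⊢ <;> norm_num
  obtain ⟨θ, hθ⟩ := circle S (1 / 3) (by norm_num) (fun x => ((col x).val : ℝ) / 3) h3
  refine ⟨θ, ?_⟩
  intro n hn
  have hnS : n ∉ S := by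
    intro hnS
    have h1 := hθ n hnS
    have h2 : 1 / 3 ≤ |θ * n - round (θ * n)| := by
      rw [abs_sub_round_eq_min]
      apply le_min h1.1
      linarith [h1.2]
    linarith
  rw [hS, Set.mem_setOf_eq] at hnS
  push Not at hnS
  obtain ⟨x, hx⟩ := hnS
  refine ⟨col x, x + n, ?_, x, hcol x, by ring⟩
  rw [← hx]
  exact hcol (x + n)

end Pool.Agent.H27.Old.ThreeSets83445a
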