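import Mathlib
import Pool.Agent.H27.KQTwoGaps

/-!
# Sets containing an infinite sequence with two consecutive differences

If a set of integers contains an infinite sequence whose consecutive differences take only two
positive values `u` and `v` (for example if all gaps of the set have length `u` or `v`), then its
difference set contains a two-dimensional Bohr set of radius `1 / max u v`.
-/

set_option autoImplicit false

namespace Pool.Agent.Results.MP_83445a_co.TwoGaps

open Pool.Agent.H27.KQ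

/-- If `A` contains an infinite sequence whose consecutive differences all lie in `{u, v}`, where
`u` and `v` are positive, then for some real numbers `θ 0` and `θ 1` every integer `n` such that
`θ 0 * n` and `θ 1 * n` are at distance less than `1 / max u v` from the nearest integers is a
difference of two elements of `A`. -/
theorem result (A : Set ℤ) (u v : ℤ) (hu : 0 < u) (hv : 0 < v) (a : ℕ → ℤ)
    (haA : ∀ i, a i ∈ A) (hstep : ∀ i, a (i + 1) = a i + u ∨ a (i + 1) = a i + v) :
    ∃ θ : Fin 2 → ℝ, ∀ n : ℤ,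
      (∀ j, |θ j * n - round (θ j * n)| < 1 / ((max u v : ℤ) : ℝ)) →
      ∃ x ∈ A, ∃ y ∈ A, n = x - y := by
  obtain ⟨θ, hθ⟩ := two_gaps a u v hu hv hstep
  have hdpos : (0 : ℤ) < (Int.gcd u v : ℤ) := by
    exact_mod_cast Int.gcd_pos_of_ne_zero_left v hu.ne'
  have hdr : (0 : ℝ) < (Int.gcd u v : ℝ) := by exact_mod_cast hdpos
  have hd1 : (1 : ℝ) ≤ (Int.gcd u v : ℝ) := by exact_mod_cast hdpos
  have hmaxpos : (0 : ℤ) < max u v := lt_max_of_lt_left hu
  have hmaxr : (0 : ℝ) < ((max u v : ℤ) : ℝ) := by exact_mod_cast hmaxpos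
  have hdmax : (Int.gcd u v : ℤ) ≤ max u v :=
    (Int.le_of_dvd hu (Int.gcd_dvd_left u v)).trans (le_max_left u v)
  have hdmaxr : (Int.gcd u v : ℝ) ≤ ((max u v : ℤ) : ℝ) := by exact_mod_cast hdmax
  refine ⟨![θ, 1 / (Int.gcd u v : ℝ)], ?_⟩
  intro n hn
  have h0 : |θ * n - round (θ * n)| < 1 / ((max u v : ℤ) : ℝ) := hn 0
  have h1 : |1 / (Int.gcd u v : ℝ) * n - round (1 / (Int.gcd u v : ℝ) * n)| <
      1 / ((max u v : ℤ) : ℝ) := hn 1
  have hdvd : (Int.gcd u v : ℤ) ∣ n := by
    set r : ℤ := round (1 / (Int.gcd u v : ℝ) * n) with hr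
    have h2 : |((n - Int.gcd u v * r : ℤ) : ℝ)| < 1 := by
      have e : ((n - Int.gcd u v * r : ℤ) : ℝ) =
          (Int.gcd u v : ℝ) * (1 / (Int.gcd u v : ℝ) * n - r) := by
        push_cast; field_simp
      rw [e, abs_mul, abs_of_pos hdr]
      calc (Int.gcd u v : ℝ) * |1 / (Int.gcd u v : ℝ) * n - r|
          < (Int.gcd u v : ℝ) * (1 / ((max u v : ℤ) : ℝ)) := mul_lt_mul_of_pos_left h1 hdr
        _ ≤ ((max u v : ℤ) : ℝ) * (1 / ((max u v : ℤ) : ℝ)) :=
            mul_le_mul_of_nonneg_right hdmaxr (by positivity)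
        _ = 1 := by field_simp
    have h3 : |n - Int.gcd u v * r| < 1 := by exact_mod_cast h2
    have h4 : n - Int.gcd u v * r = 0 := Int.abs_lt_one_iff.mp h3
    exact ⟨r, by linarith⟩
  obtain ⟨i, j, hij⟩ := hθ n hdvd (lt_of_lt_of_le h0 (div_le_div_of_nonneg_right hd1 hmaxr.le))
  exact ⟨a i, haA i, a j, haA j, hij⟩

end Pool.Agent.Results.MP_83445a_co.TwoGaps
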